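import Pool.Agent.helper54.UG.Spec

/-!
# Row ug:TRP: transposition.
-/

set_option autoImplicit false

namespace Pool.Agent.UG

open Matrix Pool.Agent.H48SL

theorem TRP_mul {n : ℕ} (g h : SLZ n) : (g * h).transpose = h.transpose * g.transpose := by
  apply SL_ext
  rw [Matrix.SpecialLinearGroup.coe_transpose, Matrix.SpecialLinearGroup.coe_mul,
    Matrix.SpecialLinearGroup.coe_mul, Matrix.transpose_mul,
    Matrix.SpecialLinearGroup.coe_transpose, Matrix.SpecialLinearGroup.coe_transpose]

theorem TRP_one {n : ℕ} : (1 : SLZ n).transpose = 1 := by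
  apply SL_ext
  rw [Matrix.SpecialLinearGroup.coe_transpose, Matrix.SpecialLinearGroup.coe_one,
    Matrix.transpose_one]

theorem TRP_tt {n : ℕ} (g : SLZ n) : g.transpose.transpose = g := by
  apply SL_ext
  rw [Matrix.SpecialLinearGroup.coe_transpose, Matrix.SpecialLinearGroup.coe_transpose,
    Matrix.transpose_transpose]

theorem TRP_inv {n : ℕ} (g : SLZ n) : g⁻¹.transpose = g.transpose⁻¹ := by
  rw [eq_inv_iff_mul_eq_one, ← TRP_mul, mul_inv_cancel, TRP_one]

/-- the automorphism `g ↦ (gᵀ)⁻¹` -/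
def TRP_e (n : ℕ) : SLZ n ≃* SLZ n where
  toFun g := g.transpose⁻¹
  invFun g := g.transpose⁻¹
  left_inv g := by
    show (g.transpose⁻¹).transpose⁻¹ = g
    rw [TRP_inv, TRP_tt, inv_inv]
  right_inv g := by
    show (g.transpose⁻¹).transpose⁻¹ = g
    rw [TRP_inv, TRP_tt, inv_inv]
  map_mul' g h := by
    show (g * h).transpose⁻¹ = g.transpose⁻¹ * h.transpose⁻¹
    rw [TRP_mul, _root_.mul_inv_rev]

theorem TRP_e_apply {n : ℕ} (g : SLZ n) : TRP_e n g = g.transpose⁻¹ := rfl

theorem TRP : TRP_stmt := by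
  intro n H hD
  refine ⟨H.comap (TRP_e n).toMonoidHom, ?_, ?_, ?_⟩
  · intro P hP g
    set Q : MvPolynomial (Fin n × Fin n) ℤ := MvPolynomial.rename Prod.swap P with hQ
    have h1 : ∀ x : SLZ n, MvPolynomial.eval
        (fun y : Fin n × Fin n => (x : Matrix (Fin n) (Fin n) ℤ) y.1 y.2) Q =
        MvPolynomial.eval
        (fun y : Fin n × Fin n => (x.transpose : Matrix (Fin n) (Fin n) ℤ) y.1 y.2) P := by
      intro x
      rw [hQ, MvPolynomial.eval_rename]
      rfl
    have h2 := hD Q (fun x hx => by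
      rw [h1]
      apply hP
      rw [Subgroup.mem_comap]
      show x.transpose.transpose⁻¹ ∈ H
      rw [TRP_tt]
      exact H.inv_mem hx) g.transpose
    rw [h1, TRP_tt] at h2
    exact h2
  · intro h
    rw [Subgroup.mem_comap]
    show h.transpose⁻¹ ∈ H ↔ _
    exact H.inv_mem_iff
  · intro hf
    have h1 := Subgroup.index_comap_of_surjective H (f := (TRP_e n).toMonoidHom)
      (TRP_e n).surjective
    exact ⟨by rw [← h1]; exact hf.index_ne_zero⟩

end Pool.Agent.UG
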